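import Pool.Agent.H430R2.PermCubes.Upper

set_option autoImplicit false

/-!
# Variational sets of `m + 1` permutation cubes of order six, `m` even

One triple of latin squares `L 0`, `L 1`, `L 2` with values in `ZMod 6` gives, for every even
`m ≥ 8`, a variational set of `m + 1` cubes of dimension `m` over `ZMod 6`. The differences
`L 1 - L 0`, `L 2 - L 0` are jointly injective, and they determine, modulo `3`, the parity of
`L 0 + L 1 + L 2`. The cubes satisfy a linear relation modulo `3`, and modulo `2` their sum is a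
function of the differences of the cubes modulo `3`.
-/

namespace Pool.Agent.TH418.CubesEven

open Function Pool.Agent.H430R2.PermCubes

/-- `6 a = 0` in `ZMod 6` -/
theorem h6 (a : ZMod 6) : 6 * a = 0 := by revert a; decide

/-- three latin squares with values in `ZMod 6`, such that the pair of differences
`(L 1 - L 0, L 2 - L 0)` is injective and modulo `3` determines the parity of the sum -/
structure IsGadget (L : Fin 3 → ZMod 6 → ZMod 6 → ZMod 6) : Prop where
  row : ∀ c p, Bijective (fun q => L c p q)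
  col : ∀ c q, Bijective (fun p => L c p q)
  inj : ∀ p q p' q', L 1 p q - L 0 p q = L 1 p' q' - L 0 p' q' →
    L 2 p q - L 0 p q = L 2 p' q' - L 0 p' q' → p = p' ∧ q = q'
  par : ∀ p q p' q', 2 * (L 1 p q - L 0 p q) = 2 * (L 1 p' q' - L 0 p' q') →
    2 * (L 2 p q - L 0 p q) = 2 * (L 2 p' q' - L 0 p' q') →
    3 * (L 0 p q + L 1 p q + L 2 p q) = 3 * (L 0 p' q' + L 1 p' q' + L 2 p' q')

/-- a family of cubes indexed by `O` of dimension `I` over `ZMod 6`, all lines bijective, jointly
injective, with a linear relation modulo `3` and a relation modulo `2` -/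
structure Good (I O : Type) [DecidableEq I] [Fintype O] (F : (I → ZMod 6) → O → ZMod 6)
    (s : O → ZMod 6) : Prop where
  line : ∀ (o : O) (i : I) (x : I → ZMod 6), Bijective (fun t => F (update x i t) o)
  inj : Injective F
  sgn : ∀ o, s o = 1 ∨ s o = -1
  bal : 2 * ∑ o, s o = 0
  rel3 : ∀ x, 2 * ∑ o, s o * F x o = 0
  odd : (3 : ZMod 6) * (Fintype.card O : ZMod 6) = 3
  rel2 : ∀ x y, (∀ o o', 2 * (F x o - F x o') = 2 * (F y o - F y o')) →
    3 * ∑ o, F x o = 3 * ∑ o, F y o

theorem bij_add_const {f : ZMod 6 → ZMod 6} (hf : Bijective f) (a : ZMod 6) :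
    Bijective (fun t => a + f t) :=
  (Equiv.addLeft a).bijective.comp hf

theorem bij_add_const' {f : ZMod 6 → ZMod 6} (hf : Bijective f) (a : ZMod 6) :
    Bijective (fun t => f t + a) :=
  (Equiv.addRight a).bijective.comp hf

/-- the letter of the new gadget for the old output `o` -/
def sym {O : Type} [DecidableEq O] (a a' b b' o : O) : Fin 3 :=
  if o = a ∨ o = a' then 1 else if o = b ∨ o = b' then 2 else 0

/-- the family of the recursion step -/
def stepF {I O : Type} [DecidableEq O] (L : Fin 3 → ZMod 6 → ZMod 6 → ZMod 6)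
    (F : (I → ZMod 6) → O → ZMod 6) (a a' b b' c : O)
    (x : Option (Option I) → ZMod 6) : Option (Option O) → ZMod 6
  | none => F (fun i => x (some (some i))) c + L 2 (x none) (x (some none))
  | some none => F (fun i => x (some (some i))) c + L 1 (x none) (x (some none))
  | some (some o) =>
      F (fun i => x (some (some i))) o + L (sym a a' b b' o) (x none) (x (some none))

/-- the signs of the recursion step -/
def stepS {O : Type} [DecidableEq O] (s : O → ZMod 6) (c : O) : Option (Option O) → ZMod 6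
  | none => 1
  | some none => 1
  | some (some o) => if o = c then -1 else s o

/-- sums of the letters -/
theorem sum_sym {O : Type} [Fintype O] [DecidableEq O] {a a' b b' : O} (haa : a ≠ a')
    (hbb : b ≠ b') (h1 : b ≠ a) (h2 : b ≠ a') (h3 : b' ≠ a) (h4 : b' ≠ a')
    (w : O → ZMod 6) (v : Fin 3 → ZMod 6) :
    ∑ o, w o * v (sym a a' b b' o) = (∑ o, w o) * v 0 + (w a + w a') * (v 1 - v 0) +
      (w b + w b') * (v 2 - v 0) := by
  have e : ∀ o, w o * v (sym a a' b b' o) = w o * v 0 +
      ((if o = a then w o * (v 1 - v 0) else 0) + (if o = a' then w o * (v 1 - v 0) else 0)) +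
      ((if o = b then w o * (v 2 - v 0) else 0) + (if o = b' then w o * (v 2 - v 0) else 0)) := by
    intro o
    by_cases ha : o = a
    · subst ha
      simp [sym, haa, h1.symm, h3.symm]
      ring
    · by_cases ha' : o = a'
      · subst ha'
        simp [sym, ha, h2.symm, h4.symm]
        ring
      · by_cases hb : o = b
        · subst hb
          simp [sym, ha, ha', hbb]
          ring
        · by_cases hb' : o = b'
          · subst hb'
            simp [sym, ha, ha', hb]
            ring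
          · simp [sym, ha, ha', hb, hb']
  rw [Finset.sum_congr rfl (fun o _ => e o), Finset.sum_add_distrib, Finset.sum_add_distrib,
    Finset.sum_add_distrib, Finset.sum_add_distrib, ← Finset.sum_mul]
  simp only [Finset.sum_ite_eq', Finset.mem_univ, if_true]
  ring

/-- The recursion step. -/
theorem Good.step {L : Fin 3 → ZMod 6 → ZMod 6 → ZMod 6} (hL : IsGadget L) {I O : Type}
    [DecidableEq I] [Fintype O] [DecidableEq O] {F : (I → ZMod 6) → O → ZMod 6} {s : O → ZMod 6}
    (h : Good I O F s) {a a' b b' c : O} (haa : a ≠ a') (hbb : b ≠ b') (h1 : b ≠ a)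
    (h2 : b ≠ a') (h3 : b' ≠ a) (h4 : b' ≠ a') (hca : c ≠ a) (hca' : c ≠ a') (hcb : c ≠ b)
    (hcb' : c ≠ b') (ha : s a = 1) (ha' : s a' = 1) (hb : s b = 1) (hb' : s b' = 1)
    (hc : s c = 1) :
    Good (Option (Option I)) (Option (Option O)) (stepF L F a a' b b' c) (stepS s c) := by
  have upd : ∀ (x : Option (Option I) → ZMod 6) (i : I) (t : ZMod 6),
      (fun j => update x (some (some i)) t (some (some j))) =
        update (fun j => x (some (some j))) i t := by
    intro x i t
    funext j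
    by_cases hj : j = i
    · subst hj; simp
    · rw [update_of_ne hj, update_of_ne (by simpa using hj)]
  have hcs : sym a a' b b' c = 0 := by simp [sym, hca, hca', hcb, hcb']
  have hS : ∀ v : O → ZMod 6, ∑ o, (if o = c then (-1 : ZMod 6) else s o) * v o =
      ∑ o, s o * v o - 2 * v c := by
    intro v
    have e : ∀ o, (if o = c then (-1 : ZMod 6) else s o) * v o =
        s o * v o - (if o = c then 2 * v o else 0) := by
      intro o
      by_cases ho : o = c
      · subst ho
        simp only [if_true, hc]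
        ring
      · simp [ho]
    rw [Finset.sum_congr rfl (fun o _ => e o), Finset.sum_sub_distrib]
    simp
  refine ⟨?_, ?_, ?_, ?_, ?_, ?_, ?_⟩
  · intro o i x
    match o, i with
    | none, none => simpa [stepF] using bij_add_const (hL.col 2 _) _
    | none, some none => simpa [stepF] using bij_add_const (hL.row 2 _) _
    | none, some (some i) =>
      simpa [stepF, upd] using bij_add_const' (h.line c i (fun j => x (some (some j)))) _
    | some none, none => simpa [stepF] using bij_add_const (hL.col 1 _) _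
    | some none, some none => simpa [stepF] using bij_add_const (hL.row 1 _) _
    | some none, some (some i) =>
      simpa [stepF, upd] using bij_add_const' (h.line c i (fun j => x (some (some j)))) _
    | some (some o), none => simpa [stepF] using bij_add_const (hL.col _ _) _
    | some (some o), some none => simpa [stepF] using bij_add_const (hL.row _ _) _
    | some (some o), some (some i) =>
      simpa [stepF, upd] using bij_add_const' (h.line o i (fun j => x (some (some j)))) _
  · intro x y hxy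
    have e0 := congrFun hxy (some (some c))
    have e1 := congrFun hxy (some none)
    have e2 := congrFun hxy none
    simp only [stepF, hcs] at e0 e1 e2
    obtain ⟨hp, hq⟩ := hL.inj (x none) (x (some none)) (y none) (y (some none))
      (by linear_combination e1 - e0) (by linear_combination e2 - e0)
    have hF : F (fun i => x (some (some i))) = F (fun i => y (some (some i))) := by
      funext o
      have := congrFun hxy (some (some o))
      simp only [stepF, hp, hq] at this
      exact add_right_cancel this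
    have hx := h.inj hF
    funext i
    match i with
    | none => exact hp
    | some none => exact hq
    | some (some i) => exact congrFun hx i
  · intro o
    match o with
    | none => left; rfl
    | some none => left; rfl
    | some (some o) =>
      by_cases ho : o = c
      · right; simp [stepS, ho]
      · simpa [stepS, ho] using h.sgn o
  · rw [Fintype.sum_option, Fintype.sum_option]
    have := hS (fun _ => 1)
    simp only [mul_one] at this
    simp only [stepS, this]
    linear_combination h.bal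
  · intro x
    rw [Fintype.sum_option, Fintype.sum_option]
    simp only [stepF, stepS]
    rw [hS (fun o => F (fun i => x (some (some i))) o +
      L (sym a a' b b' o) (x none) (x (some none)))]
    simp only [mul_add, Finset.sum_add_distrib]
    rw [sum_sym haa hbb h1 h2 h3 h4 s (fun c => L c (x none) (x (some none)))]
    rw [ha, ha', hb, hb', hcs]
    have hr := h.rel3 (fun i => x (some (some i)))
    have hbal := h.bal
    set p := x none
    set q := x (some none)
    linear_combination hr + L 0 p q * hbal + h6 (L 1 p q) + h6 (L 2 p q) - 2 * h6 (L 0 p q)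
  · simp only [Fintype.card_option, Nat.cast_add, Nat.cast_one]
    linear_combination h.odd + h6 1
  · intro x y hxy
    rw [Fintype.sum_option, Fintype.sum_option, Fintype.sum_option, Fintype.sum_option]
    -- the differences of the gadget
    have g1 := hxy (some none) (some (some c))
    have g2 := hxy none (some (some c))
    simp only [stepF, hcs] at g1 g2
    set p := x none
    set q := x (some none)
    set p' := y none
    set q' := y (some none)
    have d1 : 2 * (L 1 p q - L 0 p q) = 2 * (L 1 p' q' - L 0 p' q') := by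
      linear_combination g1
    have d2 : 2 * (L 2 p q - L 0 p q) = 2 * (L 2 p' q' - L 0 p' q') := by
      linear_combination g2
    have hpar := hL.par p q p' q' d1 d2
    have hd : ∀ c : Fin 3, 2 * (L c p q - L 0 p q) = 2 * (L c p' q' - L 0 p' q') := by
      intro c
      fin_cases c
      · simp
      · exact d1
      · exact d2
    have hold := h.rel2 (fun i => x (some (some i))) (fun i => y (some (some i))) (by
      intro o o'
      have g := hxy (some (some o)) (some (some o'))
      simp only [stepF] at g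
      linear_combination g - hd (sym a a' b b' o) + hd (sym a a' b b' o'))
    simp only [stepF, Finset.sum_add_distrib]
    have k1 := sum_sym haa hbb h1 h2 h3 h4 (fun _ => 1) (fun c => L c p q)
    have k2 := sum_sym haa hbb h1 h2 h3 h4 (fun _ => 1) (fun c => L c p' q')
    simp only [one_mul, Finset.sum_const, Finset.card_univ, nsmul_eq_mul, mul_one] at k1 k2
    rw [k1, k2]
    have hodd := h.odd
    linear_combination hold + hpar + (L 0 p q - L 0 p' q') * hodd +
      h6 (F (fun i => x (some (some i))) c) - h6 (F (fun i => y (some (some i))) c) +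
      h6 (L 1 p q) - h6 (L 1 p' q') + h6 (L 2 p q) - h6 (L 2 p' q')
      - 2 * h6 (L 0 p q) + 2 * h6 (L 0 p' q')

/-- the linear algebra of the base case -/
theorem lin {a0 a1 a2 b0 b1 b2 c0 c1 c2 d0 d1 d2 : ZMod 6}
    (k0 : a0 + b0 + c0 + d0 = 0)
    (k1 : a0 + b1 + c2 + d1 = 0)
    (k2 : a0 + b2 + c1 + d0 = 0)
    (k3 : a1 + b0 + c2 + d1 = 0)
    (k4 : a1 + b1 + c1 + d0 = 0)
    (k5 : a1 + b2 + c0 + d2 = 0)
    (k6 : a2 + b0 + c1 + d2 = 0)
    (k7 : a2 + b1 + c0 + d1 = 0)
    (k8 : a2 + b2 + c2 + d2 = 0) :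
    d1 - d0 = 0 ∧
    d2 - d0 = 0 ∧
    a2 - 2 * a1 + a0 = 0 ∧
    3 * (a1 - a0) = 0 ∧
    b2 - 2 * b1 + b0 = 0 ∧
    3 * (b1 - b0) = 0 ∧
    c2 - 2 * c1 + c0 = 0 ∧
    3 * (c1 - c0) = 0 ∧
    (a1 - a0) - (b1 - b0) = 0 ∧
    (a1 - a0) - (c1 - c0) = 0 := by
  refine ⟨?_, ?_, ?_, ?_, ?_, ?_, ?_, ?_, ?_, ?_⟩
  · linear_combination (-2) * k0 + (3) * k1 + (-1) * k2 + (3) * k3 + (2) * k4 + (1) * k5 + (-1)
      * k6 + (1) * k7 + (-1) * h6 a1 + (-1) * h6 b1 + (-1) * h6 c2 + (-1) * h6 d1
  · linear_combination (-1) * k0 + (2) * k1 + (-1) * k2 + (1) * k3 + (1) * k4 + (-2) * k5 + (3)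
      * k7 + (3) * k8 + (-1) * h6 a2 + (-1) * h6 b1 + (-1) * h6 c2 + (-1) * h6 d1
  · linear_combination (1) * k0 + (-1) * k1 + (1) * k2 + (-2) * k3 + (-2) * k4 + (2) * k5 + (1)
      * k6 + (3) * k7 + (3) * k8 + (-1) * h6 a2 + (-1) * h6 b2 + (-1) * h6 c0 + (-1) * h6 d2
  · linear_combination (3) * k1 + (3) * k5 + (3) * k7 + (3) * k8 + (-1) * h6 a0 + (-1) * h6 a2 +
      (-1) * h6 b1 + (-1) * h6 b2 + (-1) * h6 c0 + (-1) * h6 c2 + (-1) * h6 d1 + (-1) * h6 d2
  · linear_combination (-1) * k1 + (1) * k2 + (1) * k3 + (-1) * k4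
  · linear_combination (3) * k3 + (3) * k5 + (3) * k7 + (3) * k8 + (-1) * h6 a1 + (-1) * h6 a2 +
      (-1) * h6 b0 + (-1) * h6 b2 + (-1) * h6 c0 + (-1) * h6 c2 + (-1) * h6 d1 + (-1) * h6 d2
  · linear_combination (3) * k0 + (2) * k1 + (1) * k2 + (2) * k3 + (2) * k4 + (2) * k5 + (1) *
      k6 + (2) * k7 + (3) * k8 + (-1) * h6 a0 + (-1) * h6 a1 + (-1) * h6 a2 + (-1) * h6 b0 + (-1)
      * h6 b1 + (-1) * h6 b2 + (-1) * h6 c0 + (-1) * h6 c1 + (-1) * h6 c2 + (-1) * h6 d0 + (-1) *
      h6 d1 + (-1) * h6 d2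
  · linear_combination (3) * k0 + (3) * k1 + (3) * k3 + (3) * k4 + (-1) * h6 a0 + (-1) * h6 a1 +
      (-1) * h6 b0 + (-1) * h6 b1 + (-1) * h6 c0 + (-1) * h6 c2 + (-1) * h6 d0 + (-1) * h6 d1
  · linear_combination (-1) * k1 + (1) * k3
  · linear_combination (1) * k0 + (-2) * k1 + (-1) * k3 + (-1) * k4 + (3) * k5 + (3) * k7 + (3)
      * k8 + (-1) * h6 a2 + (-1) * h6 b2 + (-1) * h6 c0 + (-1) * h6 d2

/-- the linear algebra modulo `3` of the base case -/
theorem lin2 {a0 a1 a2 b0 b1 b2 c0 c1 c2 d0 d1 d2 : ZMod 6}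
    (k1 : 2 * (a0 + b1 + c2 + d1) = 2 * (a0 + b0 + c0 + d0))
    (k2 : 2 * (a0 + b2 + c1 + d0) = 2 * (a0 + b0 + c0 + d0))
    (k3 : 2 * (a1 + b0 + c2 + d1) = 2 * (a0 + b0 + c0 + d0))
    (k4 : 2 * (a1 + b1 + c1 + d0) = 2 * (a0 + b0 + c0 + d0))
    (k5 : 2 * (a1 + b2 + c0 + d2) = 2 * (a0 + b0 + c0 + d0))
    (k6 : 2 * (a2 + b0 + c1 + d2) = 2 * (a0 + b0 + c0 + d0))
    (k7 : 2 * (a2 + b1 + c0 + d1) = 2 * (a0 + b0 + c0 + d0))
    (_k8 : 2 * (a2 + b2 + c2 + d2) = 2 * (a0 + b0 + c0 + d0)) :
    2 * (a0 + a1 + a2) = 0 ∧ 2 * (b0 + b1 + b2) = 0 ∧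
    2 * (c0 + c1 + c2) = 0 ∧ 2 * (d1 - d0) = 0 ∧ 2 * (d2 - d0) = 0 := by
  refine ⟨?_, ?_, ?_, ?_, ?_⟩
  · linear_combination (-1) * k1 + (1) * k2 + (1) * k3 + (1) * k4 + (-1) * k5 + (1) * k6 + (1) *
      h6 a0 + (1) * h6 c0 + (-1) * h6 c1
  · linear_combination (-1) * k1 + (1) * k2 + (1) * k3 + (-1) * k4 + (1) * h6 b1
  · linear_combination (-1) * k1 + (1) * k2 + (-1) * k3 + (-1) * k4 + (-1) * k5 + (1) * k6 +
      (-1) * k7 + (-1) * h6 a0 + (1) * h6 a1 + (-1) * h6 b0 + (1) * h6 b1 + (1) * h6 c2 + (-1) *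
      h6 d0 + (1) * h6 d1
  · linear_combination (-1) * k2 + (-1) * k4 + (1) * k5 + (-1) * k6 + (1) * k7 + (-1) * h6 c0 +
      (1) * h6 c1
  · linear_combination (-1) * k1 + (-1) * k2 + (1) * k3 + (1) * k4 + (1) * k5 + (1) * h6 a0 +
      (-1) * h6 a1

/-- the words of the base case -/
def w1 : Fin 9 → Fin 3 := ![0, 0, 0, 1, 1, 1, 2, 2, 2]

/-- the words of the base case -/
def w2 : Fin 9 → Fin 3 := ![0, 1, 2, 0, 1, 2, 0, 1, 2]

/-- the words of the base case -/
def w3 : Fin 9 → Fin 3 := ![0, 2, 1, 2, 1, 0, 1, 0, 2]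

/-- the words of the base case -/
def w4 : Fin 9 → Fin 3 := ![0, 1, 0, 1, 0, 2, 2, 1, 2]

/-- the base family, of dimension eight -/
def baseF (P R L : Fin 3 → ZMod 6 → ZMod 6 → ZMod 6) (x : Fin 8 → ZMod 6) (o : Fin 9) : ZMod 6 :=
  P (w1 o) (x 0) (x 1) + R (w2 o) (x 2) (x 3) + R (w3 o) (x 4) (x 5) + L (w4 o) (x 6) (x 7)

/-- a gadget with a symmetry of order three, which moves the square `0` by `e` times the amount
by which it moves the difference of the squares `1` and `0` -/
structure IsSpecial (e : ZMod 6) (L : Fin 3 → ZMod 6 → ZMod 6 → ZMod 6) : Prop where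
  gad : IsGadget L
  par : ∀ p q p' q', 2 * (L 0 p q + L 1 p q + L 2 p q) = 2 * (L 0 p' q' + L 1 p' q' + L 2 p' q') →
    3 * (L 0 p q + L 1 p q + L 2 p q) = 3 * (L 0 p' q' + L 1 p' q' + L 2 p' q')
  tr : ∀ p q p' q', 3 * ((L 1 p' q' - L 0 p' q') - (L 1 p q - L 0 p q)) = 0 →
    (L 2 p' q' - L 0 p' q') - (L 2 p q - L 0 p q) =
      2 * ((L 1 p' q' - L 0 p' q') - (L 1 p q - L 0 p q)) →
    L 0 p' q' - L 0 p q = e * ((L 1 p' q' - L 0 p' q') - (L 1 p q - L 0 p q))

theorem sum_nine (f : Fin 9 → ZMod 6) :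
    ∑ o, f o = f 0 + f 1 + f 2 + f 3 + f 4 + f 5 + f 6 + f 7 + f 8 := by
  rw [Fin.sum_univ_castSucc, Fin.sum_univ_eight]
  rfl

theorem good_base {P R L : Fin 3 → ZMod 6 → ZMod 6 → ZMod 6} (hP : IsSpecial 2 P)
    (hR : IsSpecial 0 R) (hL : IsGadget L) :
    Good (Fin 8) (Fin 9) (baseF P R L) (fun _ => 1) := by
  refine ⟨?_, ?_, ?_, ?_, ?_, ?_, ?_⟩
  · intro o i x
    fin_cases i
    · simpa [baseF] using bij_add_const' (bij_add_const' (bij_add_const'
        (hP.gad.col (w1 o) (x 1)) _) _) _
    · simpa [baseF] using bij_add_const' (bij_add_const' (bij_add_const'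
        (hP.gad.row (w1 o) (x 0)) _) _) _
    · simpa [baseF] using bij_add_const' (bij_add_const' (bij_add_const
        (hR.gad.col (w2 o) (x 3)) (P (w1 o) (x 0) (x 1))) _) _
    · simpa [baseF] using bij_add_const' (bij_add_const' (bij_add_const
        (hR.gad.row (w2 o) (x 2)) (P (w1 o) (x 0) (x 1))) _) _
    · simpa [baseF] using bij_add_const' (bij_add_const
        (hR.gad.col (w3 o) (x 5)) (P (w1 o) (x 0) (x 1) + R (w2 o) (x 2) (x 3))) _
    · simpa [baseF] using bij_add_const' (bij_add_const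
        (hR.gad.row (w3 o) (x 4)) (P (w1 o) (x 0) (x 1) + R (w2 o) (x 2) (x 3))) _
    · simpa [baseF] using bij_add_const (hL.col (w4 o) (x 7)) _
    · simpa [baseF] using bij_add_const (hL.row (w4 o) (x 6)) _
  · intro x y hxy
    have h0 := congrFun hxy 0
    have h1 := congrFun hxy 1
    have h2 := congrFun hxy 2
    have h3 := congrFun hxy 3
    have h4 := congrFun hxy 4
    have h5 := congrFun hxy 5
    have h6x := congrFun hxy 6
    have h7 := congrFun hxy 7
    have h8 := congrFun hxy 8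
    simp only [baseF, w1, w2, w3, w4, Matrix.cons_val_zero, Matrix.cons_val_one,
      Matrix.cons_val] at h0 h1 h2 h3 h4 h5 h6x h7 h8
    obtain ⟨g1, g2, ga, ga3, gb, gb3, gc, gc3, gab, gac⟩ := lin
      (a0 := P 0 (y 0) (y 1) - P 0 (x 0) (x 1)) (a1 := P 1 (y 0) (y 1) - P 1 (x 0) (x 1))
      (a2 := P 2 (y 0) (y 1) - P 2 (x 0) (x 1)) (b0 := R 0 (y 2) (y 3) - R 0 (x 2) (x 3))
      (b1 := R 1 (y 2) (y 3) - R 1 (x 2) (x 3)) (b2 := R 2 (y 2) (y 3) - R 2 (x 2) (x 3))
      (c0 := R 0 (y 4) (y 5) - R 0 (x 4) (x 5)) (c1 := R 1 (y 4) (y 5) - R 1 (x 4) (x 5))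
      (c2 := R 2 (y 4) (y 5) - R 2 (x 4) (x 5)) (d0 := L 0 (y 6) (y 7) - L 0 (x 6) (x 7))
      (d1 := L 1 (y 6) (y 7) - L 1 (x 6) (x 7)) (d2 := L 2 (y 6) (y 7) - L 2 (x 6) (x 7))
      (by linear_combination -h0)
      (by linear_combination -h1)
      (by linear_combination -h2)
      (by linear_combination -h3)
      (by linear_combination -h4)
      (by linear_combination -h5)
      (by linear_combination -h6x)
      (by linear_combination -h7)
      (by linear_combination -h8)
    -- the last gadget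
    obtain ⟨e6, e7⟩ := hL.inj (y 6) (y 7) (x 6) (x 7) (by linear_combination g1)
      (by linear_combination g2)
    rw [e6, e7] at h0
    -- the special gadgets move by the symmetry of order three
    have ta := hP.tr (x 0) (x 1) (y 0) (y 1) (by linear_combination ga3)
      (by linear_combination ga)
    have tb := hR.tr (x 2) (x 3) (y 2) (y 3) (by linear_combination gb3)
      (by linear_combination gb)
    have tc := hR.tr (x 4) (x 5) (y 4) (y 5) (by linear_combination gc3)
      (by linear_combination gc)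
    have hδ : (P 1 (y 0) (y 1) - P 0 (y 0) (y 1)) - (P 1 (x 0) (x 1) - P 0 (x 0) (x 1)) = 0 := by
      linear_combination ga3 + h0 + ta + tb + tc
    obtain ⟨e0, e1⟩ := hP.gad.inj (y 0) (y 1) (x 0) (x 1) (by linear_combination hδ)
      (by linear_combination ga + 2 * hδ)
    obtain ⟨e2, e3⟩ := hR.gad.inj (y 2) (y 3) (x 2) (x 3) (by linear_combination hδ - gab)
      (by linear_combination gb + 2 * hδ - 2 * gab)
    obtain ⟨e4, e5⟩ := hR.gad.inj (y 4) (y 5) (x 4) (x 5) (by linear_combination hδ - gac)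
      (by linear_combination gc + 2 * hδ - 2 * gac)
    funext i
    fin_cases i
    · exact e0.symm
    · exact e1.symm
    · exact e2.symm
    · exact e3.symm
    · exact e4.symm
    · exact e5.symm
    · exact e6.symm
    · exact e7.symm
  · intro o
    left
    rfl
  · simp only [Finset.sum_const, Finset.card_univ, Fintype.card_fin]
    decide
  · intro x
    rw [sum_nine]
    simp only [baseF, w1, w2, w3, w4, Matrix.cons_val_zero, Matrix.cons_val_one, Matrix.cons_val]
    linear_combination h6 (P 0 (x 0) (x 1) + P 1 (x 0) (x 1) + P 2 (x 0) (x 1) +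
      R 0 (x 2) (x 3) + R 1 (x 2) (x 3) + R 2 (x 2) (x 3) + R 0 (x 4) (x 5) + R 1 (x 4) (x 5) +
      R 2 (x 4) (x 5) + L 0 (x 6) (x 7) + L 1 (x 6) (x 7) + L 2 (x 6) (x 7))
  · simp only [Fintype.card_fin]
    decide
  · intro x y hxy
    have h1 := hxy 1 0
    have h2 := hxy 2 0
    have h3 := hxy 3 0
    have h4 := hxy 4 0
    have h5 := hxy 5 0
    have h6x := hxy 6 0
    have h7 := hxy 7 0
    have h8 := hxy 8 0
    simp only [baseF, w1, w2, w3, w4, Matrix.cons_val_zero, Matrix.cons_val_one,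
      Matrix.cons_val] at h1 h2 h3 h4 h5 h6x h7 h8
    obtain ⟨ga, gb, gc, g1, g2⟩ := lin2
      (a0 := P 0 (y 0) (y 1) - P 0 (x 0) (x 1)) (a1 := P 1 (y 0) (y 1) - P 1 (x 0) (x 1))
      (a2 := P 2 (y 0) (y 1) - P 2 (x 0) (x 1)) (b0 := R 0 (y 2) (y 3) - R 0 (x 2) (x 3))
      (b1 := R 1 (y 2) (y 3) - R 1 (x 2) (x 3)) (b2 := R 2 (y 2) (y 3) - R 2 (x 2) (x 3))
      (c0 := R 0 (y 4) (y 5) - R 0 (x 4) (x 5)) (c1 := R 1 (y 4) (y 5) - R 1 (x 4) (x 5))
      (c2 := R 2 (y 4) (y 5) - R 2 (x 4) (x 5)) (d0 := L 0 (y 6) (y 7) - L 0 (x 6) (x 7))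
      (d1 := L 1 (y 6) (y 7) - L 1 (x 6) (x 7)) (d2 := L 2 (y 6) (y 7) - L 2 (x 6) (x 7))
      (by linear_combination -h1)
      (by linear_combination -h2)
      (by linear_combination -h3)
      (by linear_combination -h4)
      (by linear_combination -h5)
      (by linear_combination -h6x)
      (by linear_combination -h7)
      (by linear_combination -h8)
    have pa := hP.par (x 0) (x 1) (y 0) (y 1) (by linear_combination -ga)
    have pb := hR.par (x 2) (x 3) (y 2) (y 3) (by linear_combination -gb)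
    have pc := hR.par (x 4) (x 5) (y 4) (y 5) (by linear_combination -gc)
    have pd := hL.par (x 6) (x 7) (y 6) (y 7) (by linear_combination -g1)
      (by linear_combination -g2)
    rw [sum_nine, sum_nine]
    simp only [baseF, w1, w2, w3, w4, Matrix.cons_val_zero, Matrix.cons_val_one, Matrix.cons_val]
    linear_combination 3 * (pa + pb + pc + pd)

/-- A good family exists in every even dimension at least eight. -/
theorem exists_good {P R L : Fin 3 → ZMod 6 → ZMod 6 → ZMod 6} (hP : IsSpecial 2 P)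
    (hR : IsSpecial 0 R) (hL : IsGadget L) (r : ℕ) :
    ∃ (I O : Type) (_ : DecidableEq I) (_ : Fintype I) (_ : Fintype O) (_ : DecidableEq O)
      (F : (I → ZMod 6) → O → ZMod 6) (s : O → ZMod 6) (a a' b b' c : O), Good I O F s ∧
      (a ≠ a' ∧ b ≠ b' ∧ b ≠ a ∧ b ≠ a' ∧ b' ≠ a ∧ b' ≠ a' ∧ c ≠ a ∧ c ≠ a' ∧ c ≠ b ∧ c ≠ b') ∧
      (s a = 1 ∧ s a' = 1 ∧ s b = 1 ∧ s b' = 1 ∧ s c = 1) ∧
      Fintype.card I = 2 * r + 8 ∧ Fintype.card O = 2 * r + 9 := by
  induction r with
  | zero =>
    exact ⟨Fin 8, Fin 9, inferInstance, inferInstance, inferInstance, inferInstance, baseF P R L,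
      fun _ => 1, 0, 1, 2, 3, 4, good_base hP hR hL, by decide, ⟨rfl, rfl, rfl, rfl, rfl⟩,
      by simp, by simp⟩
  | succ r ih =>
    obtain ⟨I, O, _, _, _, _, F, s, a, a', b, b', c, h,
      ⟨h1, h2, h3, h4, h5, h6, h7, h8, h9, h10⟩, ⟨s1, s2, s3, s4, s5⟩, hI, hO⟩ := ih
    refine ⟨Option (Option I), Option (Option O), inferInstance, inferInstance, inferInstance,
      inferInstance, stepF L F a a' b b' c, stepS s c, some (some a), some (some a'),
      some (some b), some (some b'), some none,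
      h.step hL h1 h2 h3 h4 h5 h6 h7 h8 h9 h10 s1 s2 s3 s4 s5, ?_, ?_, ?_, ?_⟩
    · simp [h1, h2, h3, h4, h5, h6]
    · simp [stepS, h7.symm, h8.symm, h9.symm, h10.symm, s1, s2, s3, s4]
    · simp only [Fintype.card_option, hI]; ring
    · simp only [Fintype.card_option, hO]; ring

/-- Two points of a good family that agree on all outputs but one are equal. -/
theorem Good.eq_of_agree {I O : Type} [DecidableEq I] [Fintype O] [DecidableEq O]
    {F : (I → ZMod 6) → O → ZMod 6} {s : O → ZMod 6} (h : Good I O F s) {X Y : I → ZMod 6}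
    {k₀ : O} (hag : ∀ o, o ≠ k₀ → F X o = F Y o) : X = Y := by
  have hsum : 2 * ∑ o, s o * (F X o - F Y o) = 0 := by
    simp only [mul_sub, Finset.sum_sub_distrib]
    linear_combination h.rel3 X - h.rel3 Y
  rw [Finset.sum_eq_single k₀ (fun o _ ho => by rw [hag o ho, sub_self, mul_zero])
    (fun h' => absurd (Finset.mem_univ _) h')] at hsum
  have h2 : 2 * (F X k₀ - F Y k₀) = 0 := by
    rcases h.sgn k₀ with h1 | h1
    · rw [h1] at hsum
      linear_combination hsum
    · rw [h1] at hsum
      linear_combination -hsum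
  have hall : ∀ o, 2 * F X o = 2 * F Y o := by
    intro o
    by_cases ho : o = k₀
    · subst ho
      linear_combination h2
    · rw [hag o ho]
  have h3 := h.rel2 X Y (fun o o' => by linear_combination hall o - hall o')
  have h3' : 3 * ∑ o, (F X o - F Y o) = 0 := by
    rw [Finset.sum_sub_distrib]
    linear_combination h3
  rw [Finset.sum_eq_single k₀ (fun o _ ho => by rw [hag o ho, sub_self])
    (fun h' => absurd (Finset.mem_univ _) h')] at h3'
  apply h.inj
  funext o
  by_cases ho : o = k₀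
  · subst ho
    linear_combination h3' - h2
  · exact hag o ho

/-- A good family with `m + 1` cubes of dimension `m` is a variational set. -/
theorem Good.exists_variational {I O : Type} [DecidableEq I] [Fintype I]
    [Fintype O] [DecidableEq O] {F : (I → ZMod 6) → O → ZMod 6} {s : O → ZMod 6}
    (h : Good I O F s) {m : ℕ} (hI : Fintype.card I = m) (hO : Fintype.card O = m + 1) :
    ∃ C : Fin (m + 1) → (Fin m → Fin 6) → Fin 6, IsVariationalSet m 6 (m + 1) C := by
  have eI : Fin m ≃ I := (Fintype.equivFinOfCardEq hI).symm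
  have eO : Fin (m + 1) ≃ O := (Fintype.equivFinOfCardEq hO).symm
  refine ⟨fun k x => F (fun i => x (eI.symm i)) (eO k), ?_, ?_⟩
  · intro k i x
    have e : ∀ t : Fin 6, (fun j => update x i t (eI.symm j)) =
        update (fun j => x (eI.symm j)) (eI i) t := by
      intro t
      funext j
      by_cases hj : j = eI i
      · subst hj; simp
      · rw [update_of_ne hj, update_of_ne]
        intro h'
        exact hj (by rw [← h']; simp)
    simp only [e]
    exact h.line _ _ _
  · intro e he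
    refine Finite.injective_iff_bijective.1 ?_
    intro x y hxy
    -- the missing output
    obtain ⟨k₀, hk₀⟩ : ∃ k₀, ∀ k, k ≠ k₀ → ∃ i, e i = k := by
      have hc : (Finset.univ.image e)ᶜ.card = 1 := by
        rw [Finset.card_compl, Finset.card_image_of_injective _ he]
        simp
      obtain ⟨k₀, hk₀⟩ := Finset.card_eq_one.1 hc
      refine ⟨k₀, fun k hk => ?_⟩
      by_contra hcon
      have : k ∈ (Finset.univ.image e)ᶜ := by
        simpa using hcon
      rw [hk₀, Finset.mem_singleton] at this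
      exact hk this
    have hXY : (fun i => x (eI.symm i) : I → ZMod 6) = (fun i => y (eI.symm i)) := by
      apply h.eq_of_agree (k₀ := eO k₀)
      intro o ho
      obtain ⟨i, hi⟩ := hk₀ (eO.symm o) (fun h' => ho (by rw [← h']; simp))
      have := congrFun hxy i
      simpa [hi] using this
    funext i
    have := congrFun hXY (eI i)
    simpa using this

/-- the first latin square of order six -/
def sq0 : ZMod 6 → ZMod 6 → ZMod 6 :=
  ![![0, 1, 5, 3, 4, 2], ![3, 4, 2, 0, 1, 5], ![4, 2, 0, 1, 5, 3], ![1, 5, 3, 4, 2, 0],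
    ![5, 3, 4, 2, 0, 1], ![2, 0, 1, 5, 3, 4]]

/-- the second latin square of order six -/
def sq1 : ZMod 6 → ZMod 6 → ZMod 6 :=
  ![![0, 1, 4, 5, 3, 2], ![4, 5, 3, 2, 1, 0], ![5, 4, 2, 3, 0, 1], ![3, 2, 0, 1, 5, 4],
    ![2, 3, 1, 0, 4, 5], ![1, 0, 5, 4, 2, 3]]

/-- the third latin square of order six -/
def sq2 : ZMod 6 → ZMod 6 → ZMod 6 :=
  ![![0, 2, 3, 4, 5, 1], ![4, 1, 0, 2, 3, 5], ![3, 5, 4, 0, 1, 2], ![1, 3, 2, 5, 4, 0],
    ![5, 0, 1, 3, 2, 4], ![2, 4, 5, 1, 0, 3]]

/-- the gadget -/
def gadL : Fin 3 → ZMod 6 → ZMod 6 → ZMod 6 := ![sq0, sq1, sq2]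

/-- the gadget with the letters `0` and `1` exchanged -/
def gadP : Fin 3 → ZMod 6 → ZMod 6 → ZMod 6 := ![sq1, sq0, sq2]

/-- the gadget with the letters `1` and `2` exchanged -/
def gadR : Fin 3 → ZMod 6 → ZMod 6 → ZMod 6 := ![sq0, sq2, sq1]


/-- the property of a gadget with a symmetry, in a form that can be decided -/
structure IsSpecialDec (e : ZMod 6) (L : Fin 3 → ZMod 6 → ZMod 6 → ZMod 6) : Prop where
  row : ∀ (c : Fin 3) (p q q' : ZMod 6), L c p q = L c p q' → q = q'
  col : ∀ (c : Fin 3) (q p p' : ZMod 6), L c p q = L c p' q → p = p'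
  inj : ∀ p q p' q', L 1 p q - L 0 p q = L 1 p' q' - L 0 p' q' →
    L 2 p q - L 0 p q = L 2 p' q' - L 0 p' q' → p = p' ∧ q = q'
  par : ∀ p q p' q', 2 * (L 0 p q + L 1 p q + L 2 p q) = 2 * (L 0 p' q' + L 1 p' q' + L 2 p' q') →
    3 * (L 0 p q + L 1 p q + L 2 p q) = 3 * (L 0 p' q' + L 1 p' q' + L 2 p' q')
  tr : ∀ p q p' q', 3 * ((L 1 p' q' - L 0 p' q') - (L 1 p q - L 0 p q)) = 0 →
    (L 2 p' q' - L 0 p' q') - (L 2 p q - L 0 p q) =
      2 * ((L 1 p' q' - L 0 p' q') - (L 1 p q - L 0 p q)) →
    L 0 p' q' - L 0 p q = e * ((L 1 p' q' - L 0 p' q') - (L 1 p q - L 0 p q))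

theorem IsSpecialDec.isSpecial {e : ZMod 6} {L : Fin 3 → ZMod 6 → ZMod 6 → ZMod 6}
    (h : IsSpecialDec e L) : IsSpecial e L := by
  refine ⟨⟨fun c p => ?_, fun c q => ?_, h.inj, fun p q p' q' h1 h2 => ?_⟩, h.par, h.tr⟩
  · exact Finite.injective_iff_bijective.1 (fun q q' hq => h.row c p q q' hq)
  · exact Finite.injective_iff_bijective.1 (fun p p' hp => h.col c q p p' hp)
  · apply h.par
    linear_combination h1 + h2 + h6 (L 0 p q) - h6 (L 0 p' q')

set_option maxRecDepth 100000 in
theorem gadL_dec : IsSpecialDec 0 gadL :=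
  ⟨by decide, by decide, by decide, by decide, by decide⟩

set_option maxRecDepth 100000 in
theorem gadP_dec : IsSpecialDec 2 gadP :=
  ⟨by decide, by decide, by decide, by decide, by decide⟩

set_option maxRecDepth 100000 in
theorem gadR_dec : IsSpecialDec 0 gadR :=
  ⟨by decide, by decide, by decide, by decide, by decide⟩

/-- **For every even `m ≥ 8` there is a variational set of `m + 1` cubes of order six.** -/
theorem exists_even {m : ℕ} (hm : 8 ≤ m) (heven : Even m) :
    ∃ C : Fin (m + 1) → (Fin m → Fin 6) → Fin 6, IsVariationalSet m 6 (m + 1) C := by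
  obtain ⟨k, rfl⟩ := heven
  obtain ⟨r, rfl⟩ : ∃ r, k = r + 4 := ⟨k - 4, by omega⟩
  obtain ⟨I, O, _, _, _, _, F, s, a, a', b, b', c, h, -, -, hI, hO⟩ :=
    exists_good gadP_dec.isSpecial gadR_dec.isSpecial gadL_dec.isSpecial.gad r
  exact h.exists_variational (by rw [hI]; ring) (by rw [hO]; ring)

end Pool.Agent.TH418.CubesEven
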