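import Mathlib

set_option autoImplicit false

namespace Pool.Agent.TH418.DArcais

open Polynomial Finset

/-- `sigma(k)` as a rational number. -/
noncomputable def sg (k : ℕ) : ℚ := ((ArithmeticFunction.sigma 1 k : ℕ) : ℚ)

/-- The abundancy index `sigma(k) / k` as a real number. -/
noncomputable def f (k : ℕ) : ℝ := ((ArithmeticFunction.sigma 1 k : ℕ) : ℝ) / (k : ℝ)

/-- The D'Arcais polynomials. -/
noncomputable def P : ℕ → Polynomial ℚ
  | 0 => 1
  | (n+1) => C (1 / ((n:ℚ)+1)) * (X * ∑ k : Fin (n+1), C (sg (k+1)) * P (n - k))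
termination_by n => n
decreasing_by omega

theorem P_zero : P 0 = 1 := by rw [P]

theorem P_rec (n : ℕ) (hn : 1 ≤ n) :
    (n : Polynomial ℚ) * P n =
          Polynomial.X * ∑ k ∈ Finset.Icc 1 n,
            ((ArithmeticFunction.sigma 1 k : ℕ) : Polynomial ℚ) * P (n - k) := by
  obtain ⟨m, rfl⟩ : ∃ m, n = m + 1 := ⟨n - 1, by omega⟩
  have h1 : ((m + 1 : ℕ) : Polynomial ℚ) = C ((m : ℚ) + 1) := by
    simp
  rw [h1, P, ← mul_assoc, ← C_mul]
  have h2 : ((m : ℚ) + 1) * (1 / ((m : ℚ) + 1)) = 1 := by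
    have : ((m : ℚ) + 1) ≠ 0 := by positivity
    field_simp
  rw [h2, C_1, one_mul]
  congr 1
  rw [Finset.sum_fin_eq_sum_range]
  have h3 : Finset.Icc 1 (m+1) = (Finset.range (m+1)).image (fun i => i + 1) := by
    ext x
    simp only [Finset.mem_Icc, Finset.mem_image, Finset.mem_range]
    constructor
    · rintro ⟨h, h'⟩
      exact ⟨x - 1, by omega, by omega⟩
    · rintro ⟨y, hy, rfl⟩
      omega
  rw [h3, Finset.sum_image (by intro a _ b _ h; simpa using h)]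
  apply Finset.sum_congr rfl
  intro i hi
  rw [Finset.mem_range] at hi
  rw [dif_pos hi]
  have h4 : m + 1 - (i + 1) = m - i := by omega
  rw [h4]
  simp [sg]

section
variable (Q : ℕ → Polynomial ℚ) (h0 : Q 0 = 1)
  (hrec : ∀ n : ℕ, 1 ≤ n →
        (n : Polynomial ℚ) * Q n =
          Polynomial.X * ∑ k ∈ Finset.Icc 1 n,
            ((ArithmeticFunction.sigma 1 k : ℕ) : Polynomial ℚ) * Q (n - k))

include h0 hrec in
theorem coeff_succ (n k : ℕ) (hn : 1 ≤ n) :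
    (n : ℝ) * (((Q n).coeff (k+1) : ℚ) : ℝ) = ∑ j ∈ Finset.Icc 1 n,
      ((ArithmeticFunction.sigma 1 j : ℕ) : ℝ) * (((Q (n - j)).coeff k : ℚ) : ℝ) := by
  have h := congrArg (fun p => p.coeff (k+1)) (hrec n hn)
  simp only [Polynomial.coeff_X_mul, Polynomial.finsetSum_coeff, Polynomial.coeff_natCast_mul] at h
  have h' := congrArg (fun q : ℚ => (q : ℝ)) h
  push_cast at h'
  exact h'

include h0 hrec in
theorem coeff_zero' (n : ℕ) (hn : 1 ≤ n) : (((Q n).coeff 0 : ℚ) : ℝ) = 0 := by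
  have h := congrArg (fun p => p.coeff 0) (hrec n hn)
  simp only [Polynomial.coeff_X_mul_zero, Polynomial.coeff_natCast_mul] at h
  have hn' : (n : ℚ) ≠ 0 := by positivity
  have := (mul_eq_zero.1 h).resolve_left hn'
  rw [this]; simp

include h0 hrec in
theorem coeff_one (n : ℕ) : (((Q n).coeff 1 : ℚ) : ℝ) = f n := by
  rcases Nat.eq_zero_or_pos n with rfl | hn
  · rw [h0]
    simp [f, Polynomial.coeff_one]
  · have h := coeff_succ Q h0 hrec n 0 hn
    rw [Finset.sum_eq_single n] at h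
    · rw [Nat.sub_self, h0] at h
      simp only [Polynomial.coeff_one_zero, Rat.cast_one, mul_one, zero_add] at h
      rw [f, ← h]
      have : (n : ℝ) ≠ 0 := by positivity
      field_simp
    · intro b hb hbn
      rw [Finset.mem_Icc] at hb
      rw [coeff_zero' Q h0 hrec (n - b) (by omega), mul_zero]
    · intro h
      exact absurd (Finset.mem_Icc.2 ⟨hn, le_refl n⟩) h

theorem f_nonneg (n : ℕ) : 0 ≤ f n := by unfold f; positivity

theorem f_zero : f 0 = 0 := by simp [f]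

theorem sigma_eq (j : ℕ) (hj : 1 ≤ j) : ((ArithmeticFunction.sigma 1 j : ℕ) : ℝ) = j * f j := by
  unfold f
  have : (j : ℝ) ≠ 0 := by positivity
  field_simp

theorem one_le_f (n : ℕ) (hn : 1 ≤ n) : 1 ≤ f n := by
  unfold f
  rw [le_div_iff₀ (by positivity), one_mul]
  rw [ArithmeticFunction.sigma_one_apply]
  exact_mod_cast Finset.single_le_sum (f := fun d => d) (fun _ _ => Nat.zero_le _)
    (Nat.mem_divisors_self n (by omega))

/-- partial sums of squares -/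
noncomputable def F (n : ℕ) : ℝ := ∑ j ∈ Finset.range (n+1), f j ^ 2

include h0 hrec in
theorem coeff_two_le (n : ℕ) (hn : 1 ≤ n) : (((Q n).coeff 2 : ℚ) : ℝ) ≤ F n := by
  have h := coeff_succ Q h0 hrec n 1 hn
  have hn' : (0 : ℝ) < n := by positivity
  have h2 : (n : ℝ) * (((Q n).coeff (1+1) : ℚ) : ℝ) ≤ n * F n := by
    rw [h]
    have h3 : ∀ j ∈ Finset.Icc 1 n, ((ArithmeticFunction.sigma 1 j : ℕ) : ℝ) *
        (((Q (n - j)).coeff 1 : ℚ) : ℝ) ≤ n * ((f j ^ 2 + f (n - j) ^ 2) / 2) := by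
      intro j hj
      rw [Finset.mem_Icc] at hj
      rw [coeff_one Q h0 hrec, sigma_eq j hj.1]
      have h5 : (j : ℝ) ≤ n := by exact_mod_cast hj.2
      have h6 : f j * f (n - j) ≤ (f j ^ 2 + f (n - j) ^ 2) / 2 := by
        nlinarith [sq_nonneg (f j - f (n - j))]
      have h7 : 0 ≤ f j * f (n - j) := mul_nonneg (f_nonneg _) (f_nonneg _)
      calc (j : ℝ) * f j * f (n - j) = j * (f j * f (n - j)) := by ring
        _ ≤ n * (f j * f (n - j)) := by gcongr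
        _ ≤ _ := by gcongr
    refine (Finset.sum_le_sum h3).trans ?_
    rw [← Finset.mul_sum]
    apply mul_le_mul_of_nonneg_left _ hn'.le
    rw [← Finset.sum_div, Finset.sum_add_distrib]
    have h8 : ∑ j ∈ Finset.Icc 1 n, f j ^ 2 ≤ F n := by
      unfold F
      apply Finset.sum_le_sum_of_subset_of_nonneg
      · intro x hx
        rw [Finset.mem_Icc] at hx
        rw [Finset.mem_range]; omega
      · intros; positivity
    have h9 : ∑ j ∈ Finset.Icc 1 n, f (n - j) ^ 2 ≤ F n := by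
      have h10 : ∑ j ∈ Finset.Icc 1 n, f (n - j) ^ 2 = ∑ j ∈ Finset.range n, f j ^ 2 := by
        apply Finset.sum_nbij' (fun j => n - j) (fun j => n - j)
        · intro a ha; rw [Finset.mem_Icc] at ha; rw [Finset.mem_range]; omega
        · intro a ha; rw [Finset.mem_range] at ha; rw [Finset.mem_Icc]; omega
        · intro a ha; rw [Finset.mem_Icc] at ha; omega
        · intro a ha; rw [Finset.mem_range] at ha; omega
        · intro a ha; rfl
      rw [h10]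
      unfold F
      apply Finset.sum_le_sum_of_subset_of_nonneg
      · intro x hx
        rw [Finset.mem_range] at *; omega
      · intros; positivity
    linarith
  exact le_of_mul_le_mul_left h2 hn'

include h0 hrec in
theorem coeff_nonneg (k : ℕ) : ∀ n : ℕ, 0 ≤ (((Q n).coeff k : ℚ) : ℝ) := by
  induction k with
  | zero =>
    intro n
    rcases Nat.eq_zero_or_pos n with rfl | hn
    · rw [h0]; simp
    · rw [coeff_zero' Q h0 hrec n hn]
  | succ k ih =>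
    intro n
    rcases Nat.eq_zero_or_pos n with rfl | hn
    · rw [h0]; simp [Polynomial.coeff_one]
    · have h := coeff_succ Q h0 hrec n k hn
      have h2 : 0 ≤ (n : ℝ) * (((Q n).coeff (k+1) : ℚ) : ℝ) := by
        rw [h]
        apply Finset.sum_nonneg
        intro j _
        exact mul_nonneg (by positivity) (ih _)
      exact nonneg_of_mul_nonneg_right h2 (by positivity)

theorem sum_id (n : ℕ) : ∑ j ∈ Finset.Icc 1 n, (j : ℝ) = n * (n + 1) / 2 := by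
  induction n with
  | zero => simp
  | succ n ih =>
    rw [Finset.sum_Icc_succ_top (by omega), ih]; push_cast; ring

theorem sum_sq (n : ℕ) : ∑ j ∈ Finset.Icc 1 n, (j : ℝ) ^ 2 = n * (n + 1) * (2 * n + 1) / 6 := by
  induction n with
  | zero => simp
  | succ n ih =>
    rw [Finset.sum_Icc_succ_top (by omega), ih]; push_cast; ring

include h0 hrec in
theorem le_coeff_two (n : ℕ) : ((n : ℝ) - 1) / 2 ≤ (((Q n).coeff 2 : ℚ) : ℝ) := by
  rcases Nat.eq_zero_or_pos n with rfl | hn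
  · have := coeff_nonneg Q h0 hrec 2 0
    push_cast
    linarith
  have h := coeff_succ Q h0 hrec n 1 hn
  have hn' : (0 : ℝ) < n := by positivity
  have h2 : (n : ℝ) * (((n : ℝ) - 1) / 2) ≤ (n : ℝ) * (((Q n).coeff (1+1) : ℚ) : ℝ) := by
    rw [h]
    have h3 : ∑ j ∈ Finset.Icc 1 (n-1), (j : ℝ) ≤ ∑ j ∈ Finset.Icc 1 n,
        ((ArithmeticFunction.sigma 1 j : ℕ) : ℝ) * (((Q (n - j)).coeff 1 : ℚ) : ℝ) := by
      refine le_trans (Finset.sum_le_sum (g := fun j => ((ArithmeticFunction.sigma 1 j : ℕ) : ℝ) *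
        (((Q (n - j)).coeff 1 : ℚ) : ℝ)) ?_) (Finset.sum_le_sum_of_subset_of_nonneg ?_ ?_)
      · intro j hj
        rw [Finset.mem_Icc] at hj
        rw [coeff_one Q h0 hrec, sigma_eq j hj.1]
        have h4 := one_le_f j hj.1
        have h5 := one_le_f (n - j) (by omega)
        have h6 : (0:ℝ) ≤ j := by positivity
        calc (j : ℝ) = j * 1 * 1 := by ring
          _ ≤ j * f j * f (n - j) := by gcongr
      · intro x hx
        rw [Finset.mem_Icc] at *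
        omega
      · intro j _ _
        exact mul_nonneg (by positivity) (coeff_nonneg Q h0 hrec 1 _)
    refine le_trans (le_of_eq ?_) h3
    rw [sum_id]
    have : ((n - 1 : ℕ) : ℝ) = n - 1 := by
      rw [Nat.cast_sub hn]; simp
    rw [this]; ring
  exact le_of_mul_le_mul_left h2 hn'

include h0 hrec in
theorem le_coeff_three (n : ℕ) (hn : 1 ≤ n) :
    ((n : ℝ) + 1) * (n - 4) / 12 ≤ (((Q n).coeff 3 : ℚ) : ℝ) := by
  have h := coeff_succ Q h0 hrec n 2 hn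
  have hn' : (0 : ℝ) < n := by positivity
  have h2 : (n : ℝ) * (((n : ℝ) + 1) * (n - 4) / 12) ≤
      (n : ℝ) * (((Q n).coeff (2+1) : ℚ) : ℝ) := by
    rw [h]
    have h3 : ∑ j ∈ Finset.Icc 1 n, (j : ℝ) * (((n : ℝ) - j - 1) / 2) ≤ ∑ j ∈ Finset.Icc 1 n,
        ((ArithmeticFunction.sigma 1 j : ℕ) : ℝ) * (((Q (n - j)).coeff 2 : ℚ) : ℝ) := by
      apply Finset.sum_le_sum
      intro j hj
      rw [Finset.mem_Icc] at hj
      have h4 := le_coeff_two Q h0 hrec (n - j)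
      rw [Nat.cast_sub hj.2] at h4
      have h5 := coeff_nonneg Q h0 hrec 2 (n - j)
      have h6 := one_le_f j hj.1
      rw [sigma_eq j hj.1]
      have h7 : (0:ℝ) ≤ j := by positivity
      calc (j : ℝ) * (((n : ℝ) - j - 1) / 2) ≤ j * (((Q (n - j)).coeff 2 : ℚ) : ℝ) := by gcongr
        _ = j * 1 * (((Q (n - j)).coeff 2 : ℚ) : ℝ) := by ring
        _ ≤ _ := by gcongr
    refine le_trans (le_of_eq ?_) h3
    have h8 : ∀ j ∈ Finset.Icc 1 n, (j : ℝ) * (((n : ℝ) - j - 1) / 2) =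
        ((n : ℝ) - 1) / 2 * j - 1 / 2 * (j : ℝ) ^ 2 := by
      intro j _; ring
    rw [Finset.sum_congr rfl h8, Finset.sum_sub_distrib, ← Finset.mul_sum, ← Finset.mul_sum,
      sum_id, sum_sq]
    ring
  exact le_of_mul_le_mul_left h2 hn'

end

/-- `f j = ∑_{d ∣ j} 1/d`. -/
theorem f_eq (j : ℕ) (hj : 1 ≤ j) : f j = ∑ d ∈ j.divisors, (1 : ℝ) / d := by
  unfold f
  rw [ArithmeticFunction.sigma_one_apply, ← Nat.sum_div_divisors j (fun d => d)]
  push_cast
  rw [Finset.sum_div]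
  apply Finset.sum_congr rfl
  intro d hd
  have hd' := Nat.dvd_of_mem_divisors hd
  have hd0 : 0 < d := Nat.pos_of_mem_divisors hd
  rw [Nat.cast_div hd' (by positivity)]
  have : (j : ℝ) ≠ 0 := by positivity
  field_simp

theorem summable_w : Summable (fun d : ℕ => (1 : ℝ) / (d : ℝ) ^ ((3 : ℝ) / 2)) :=
  Real.summable_one_div_nat_rpow.2 (by norm_num)

/-- the constant -/
noncomputable def Z : ℝ := ∑' d : ℕ, (1 : ℝ) / (d : ℝ) ^ ((3 : ℝ) / 2)

theorem sum_le_Z (s : Finset ℕ) : ∑ d ∈ s, (1 : ℝ) / (d : ℝ) ^ ((3 : ℝ) / 2) ≤ Z :=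
  summable_w.sum_le_tsum s (fun _ _ => by positivity)

theorem Z_nonneg : 0 ≤ Z := tsum_nonneg (fun _ => by positivity)

theorem f_sq_le (j : ℕ) (hj : 1 ≤ j) :
    f j ^ 2 ≤ Z * ∑ d ∈ j.divisors, (1 : ℝ) / (d : ℝ) ^ ((1 : ℝ) / 2) := by
  rw [f_eq j hj]
  have h := Finset.sum_mul_sq_le_sq_mul_sq j.divisors
    (fun d => (1 : ℝ) / (d : ℝ) ^ ((3 : ℝ) / 4)) (fun d => (1 : ℝ) / (d : ℝ) ^ ((1 : ℝ) / 4))
  have h1 : ∑ d ∈ j.divisors, (1 : ℝ) / (d : ℝ) ^ ((3 : ℝ) / 4) * (1 / (d : ℝ) ^ ((1 : ℝ) / 4)) =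
      ∑ d ∈ j.divisors, (1 : ℝ) / d := by
    apply Finset.sum_congr rfl
    intro d hd
    have hd0 : (0:ℝ) < d := by exact_mod_cast Nat.pos_of_mem_divisors hd
    rw [div_mul_div_comm, one_mul, ← Real.rpow_add hd0]
    norm_num
  have h2 : ∑ d ∈ j.divisors, ((1 : ℝ) / (d : ℝ) ^ ((3 : ℝ) / 4)) ^ 2 =
      ∑ d ∈ j.divisors, (1 : ℝ) / (d : ℝ) ^ ((3 : ℝ) / 2) := by
    apply Finset.sum_congr rfl
    intro d hd
    have hd0 : (0:ℝ) < d := by exact_mod_cast Nat.pos_of_mem_divisors hd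
    rw [div_pow, one_pow, ← Real.rpow_natCast, ← Real.rpow_mul hd0.le]
    norm_num
  have h3 : ∑ d ∈ j.divisors, ((1 : ℝ) / (d : ℝ) ^ ((1 : ℝ) / 4)) ^ 2 =
      ∑ d ∈ j.divisors, (1 : ℝ) / (d : ℝ) ^ ((1 : ℝ) / 2) := by
    apply Finset.sum_congr rfl
    intro d hd
    have hd0 : (0:ℝ) < d := by exact_mod_cast Nat.pos_of_mem_divisors hd
    rw [div_pow, one_pow, ← Real.rpow_natCast, ← Real.rpow_mul hd0.le]
    norm_num
  rw [h1, h2, h3] at h
  refine h.trans ?_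
  gcongr
  exact sum_le_Z _

theorem sum_divisors_le (n : ℕ) :
    ∑ j ∈ Finset.Icc 1 n, ∑ d ∈ j.divisors, (1 : ℝ) / (d : ℝ) ^ ((1 : ℝ) / 2) ≤ n * Z := by
  have h1 : ∑ j ∈ Finset.Icc 1 n, ∑ d ∈ j.divisors, (1 : ℝ) / (d : ℝ) ^ ((1 : ℝ) / 2) =
      ∑ d ∈ Finset.Icc 1 n, ∑ j ∈ (Finset.Icc 1 n).filter (fun j => d ∣ j),
        (1 : ℝ) / (d : ℝ) ^ ((1 : ℝ) / 2) := by
    apply Finset.sum_comm'
    intro x y
    simp only [Finset.mem_Icc, Nat.mem_divisors, Finset.mem_filter]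
    constructor
    · rintro ⟨⟨h1, h2⟩, h3, h4⟩
      exact ⟨⟨⟨h1, h2⟩, h3⟩, Nat.pos_of_dvd_of_pos h3 h1, (Nat.le_of_dvd h1 h3).trans h2⟩
    · rintro ⟨⟨⟨h1, h2⟩, h3⟩, h4, h5⟩
      exact ⟨⟨h1, h2⟩, h3, by omega⟩
  rw [h1]
  have h2 : ∀ d ∈ Finset.Icc 1 n, ∑ j ∈ (Finset.Icc 1 n).filter (fun j => d ∣ j),
        (1 : ℝ) / (d : ℝ) ^ ((1 : ℝ) / 2) ≤ n * ((1 : ℝ) / (d : ℝ) ^ ((3 : ℝ) / 2)) := by
    intro d hd
    rw [Finset.mem_Icc] at hd
    have hd0 : (0:ℝ) < d := by exact_mod_cast hd.1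
    rw [Finset.sum_const, nsmul_eq_mul]
    have h3 : ((Finset.Icc 1 n).filter (fun j => d ∣ j)).card = n / d := by
      have h4 := Nat.Ioc_filter_dvd_card_eq_div n d
      have h5 : Finset.Icc 1 n = Finset.Ioc 0 n := by
        ext x; simp only [Finset.mem_Icc, Finset.mem_Ioc]; omega
      rw [h5]; exact h4
    rw [h3]
    have h6 : ((n / d : ℕ) : ℝ) ≤ n / d := Nat.cast_div_le
    have h7 : (d : ℝ) ^ ((3 : ℝ) / 2) = d * (d : ℝ) ^ ((1 : ℝ) / 2) := by
      nth_rewrite 2 [← Real.rpow_one (d : ℝ)]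
      rw [← Real.rpow_add hd0]
      norm_num
    rw [h7]
    calc ((n / d : ℕ) : ℝ) * (1 / (d : ℝ) ^ ((1 : ℝ) / 2)) ≤
        (n / d : ℝ) * (1 / (d : ℝ) ^ ((1 : ℝ) / 2)) := by gcongr
      _ = _ := by
        have : (d : ℝ) ^ ((1 : ℝ) / 2) ≠ 0 := by positivity
        field_simp
  refine (Finset.sum_le_sum h2).trans ?_
  rw [← Finset.mul_sum]
  gcongr
  exact sum_le_Z _

theorem F_le (n : ℕ) : F n ≤ Z ^ 2 * n := by
  have h1 : F n = ∑ j ∈ Finset.Icc 1 n, f j ^ 2 := by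
    unfold F
    rw [Finset.range_eq_Ico, Finset.sum_eq_sum_Ico_succ_bot (by omega), f_zero]
    simp only [ne_eq, OfNat.ofNat_ne_zero, not_false_eq_true, zero_pow, zero_add]
    rfl
  rw [h1]
  calc ∑ j ∈ Finset.Icc 1 n, f j ^ 2 ≤
      ∑ j ∈ Finset.Icc 1 n, Z * ∑ d ∈ j.divisors, (1 : ℝ) / (d : ℝ) ^ ((1 : ℝ) / 2) := by
        apply Finset.sum_le_sum
        intro j hj
        exact f_sq_le j (Finset.mem_Icc.1 hj).1
    _ = Z * ∑ j ∈ Finset.Icc 1 n, ∑ d ∈ j.divisors, (1 : ℝ) / (d : ℝ) ^ ((1 : ℝ) / 2) := by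
        rw [Finset.mul_sum]
    _ ≤ Z * (n * Z) := by
        apply mul_le_mul_of_nonneg_left (sum_divisors_le n) Z_nonneg
    _ = _ := by ring

theorem harmonic_le_f (N : ℕ) : ∑ i ∈ Finset.range N, (1 : ℝ) / (i + 1) ≤ f (N.factorial) := by
  rw [f_eq _ (Nat.factorial_pos N)]
  have h1 : ∑ i ∈ Finset.range N, (1 : ℝ) / (i + 1) =
      ∑ d ∈ (Finset.range N).image (fun i : ℕ => i + 1), (1 : ℝ) / (d : ℝ) := by
    rw [Finset.sum_image (by intro a _ b _ h; simpa using h)]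
    apply Finset.sum_congr rfl
    intro i _
    push_cast; rfl
  rw [h1]
  apply Finset.sum_le_sum_of_subset_of_nonneg
  · intro x hx
    rw [Finset.mem_image] at hx
    obtain ⟨i, hi, rfl⟩ := hx
    rw [Finset.mem_range] at hi
    rw [Nat.mem_divisors]
    exact ⟨Nat.dvd_factorial (by omega) (by omega), (Nat.factorial_pos N).ne'⟩
  · intros; positivity

/-- The log-concavity at `k = 2` fails for some `n`. -/
theorem fails (Q : ℕ → Polynomial ℚ) (h0 : Q 0 = 1)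
    (hrec : ∀ n : ℕ, 1 ≤ n →
        (n : Polynomial ℚ) * Q n =
          Polynomial.X * ∑ k ∈ Finset.Icc 1 n,
            ((ArithmeticFunction.sigma 1 k : ℕ) : Polynomial ℚ) * Q (n - k)) :
    ∃ n : ℕ, (Q n).coeff 2 ^ 2 < (Q n).coeff 1 * (Q n).coeff 3 := by
  by_contra hcon
  push Not at hcon
  have key : ∀ n : ℕ, 8 ≤ n → f n ≤ 24 * Z ^ 4 := by
    intro n hn
    have h1 : f n * (((Q n).coeff 3 : ℚ) : ℝ) ≤ (((Q n).coeff 2 : ℚ) : ℝ) ^ 2 := by
      rw [← coeff_one Q h0 hrec n]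
      exact_mod_cast hcon n
    have h2 := le_coeff_three Q h0 hrec n (by omega)
    have h3 := (coeff_two_le Q h0 hrec n (by omega)).trans (F_le n)
    have h4 := coeff_nonneg Q h0 hrec 2 n
    have h5 : (((Q n).coeff 2 : ℚ) : ℝ) ^ 2 ≤ (Z ^ 2 * n) ^ 2 := by gcongr
    have hn' : (8:ℝ) ≤ n := by exact_mod_cast hn
    have h6 : (n : ℝ) ^ 2 / 24 ≤ ((n : ℝ) + 1) * (n - 4) / 12 := by nlinarith
    have h7 : f n * ((n : ℝ) ^ 2 / 24) ≤ (Z ^ 2 * n) ^ 2 := by
      refine le_trans ?_ (h1.trans h5)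
      exact mul_le_mul_of_nonneg_left (h6.trans h2) (f_nonneg n)
    have h8 : f n * (n : ℝ) ^ 2 ≤ (24 * Z ^ 4) * (n : ℝ) ^ 2 := by nlinarith
    exact le_of_mul_le_mul_right h8 (by positivity)
  have h9 := Real.tendsto_sum_range_one_div_nat_succ_atTop
  obtain ⟨N, hN1, hN2⟩ := ((h9.eventually (Filter.eventually_gt_atTop (24 * Z ^ 4))).and
    (Filter.eventually_ge_atTop 8)).exists
  have h10 := harmonic_le_f N
  have h11 := key N.factorial (hN2.trans (Nat.self_le_factorial N))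
  linarith

theorem main :
    ¬ (∀ P : ℕ → Polynomial ℚ, P 0 = 1 →
      (∀ n : ℕ, 1 ≤ n →
        (n : Polynomial ℚ) * P n =
          Polynomial.X * ∑ k ∈ Finset.Icc 1 n,
            ((ArithmeticFunction.sigma 1 k : ℕ) : Polynomial ℚ) * P (n - k)) →
      ∀ n k : ℕ, 1 ≤ k →
        (P n).coeff (k - 1) * (P n).coeff (k + 1) ≤ (P n).coeff k ^ 2) := by
  intro h
  obtain ⟨n, hn⟩ := fails P P_zero P_rec
  have := h P P_zero P_rec n 2 (by norm_num)
  exact absurd hn (not_lt.2 this)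

end Pool.Agent.TH418.DArcais
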